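import Pool.Agent.K7.H68.BoxHyperplane

set_option autoImplicit false

namespace Pool.Agent.Results.MP_e67bad_co.FailsForEveryK

/-- For every `k ≥ 2` the identity `f(n, {0, ±1, ..., ±(k+1)}, {0, ±1, ..., ±k}) = P_n` fails at
`n = 4`: some hyperplane of `ℝ⁴` meets `{0, ±1, ..., ±k}⁴` only in the origin and
`{0, ±1, ..., ±(k+1)}⁴` in at least `19` points, while
`P_4 = ((1 + √2)^4 + (1 - √2)^4) / 2 = 17`. -/
theorem result :
    (∀ k : ℕ, 2 ≤ k →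
      ∃ a : Fin 4 → ℝ, a ≠ 0 ∧
        (∀ x : Fin 4 → ℤ, (∀ i, |x i| ≤ (k : ℤ)) → ∑ i, a i * (x i : ℝ) = 0 → x = 0) ∧
        19 ≤ ((Fintype.piFinset fun _ : Fin 4 =>
              Finset.Icc (-((k : ℤ) + 1)) ((k : ℤ) + 1)).filter
                (fun x => ∑ i, a i * (x i : ℝ) = 0)).card) ∧
    ((1 + Real.sqrt 2) ^ 4 + (1 - Real.sqrt 2) ^ 4) / 2 = 17 :=
  ⟨Pool.Agent.K7.H68.BoxHyperplane.nineteen, Pool.Agent.K7.H68.BoxHyperplane.pell_four⟩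

end Pool.Agent.Results.MP_e67bad_co.FailsForEveryK
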